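import Mathlib

/-! The John ellipsoid of a centrally symmetric convex body in R^3: there is an invertible matrix M
with M(unit ball) inside C and C inside M(ball of radius sqrt 3). The ellipsoid is the one of
largest determinant. -/

namespace Helper91.SF

open Matrix

/-- sum of the three squares -/
def nsq (u : Fin 3 → ℝ) : ℝ := u 0 ^ 2 + u 1 ^ 2 + u 2 ^ 2

/-- the matrix which stretches the direction u by a and the orthogonal directions by b -/
def NN (b c : ℝ) (u : Fin 3 → ℝ) : Matrix (Fin 3) (Fin 3) ℝ :=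
  fun i j => b * (if i = j then 1 else 0) + c * (u i * u j)

theorem NN_det (b c : ℝ) (u : Fin 3 → ℝ) : (NN b c u).det = b ^ 3 + b ^ 2 * c * nsq u := by
  simp [Matrix.det_fin_three, NN, nsq]
  ring

theorem NN_mulVec (b c : ℝ) (u v : Fin 3 → ℝ) (i : Fin 3) :
    (NN b c u).mulVec v i = b * v i + c * (u 0 * v 0 + u 1 * v 1 + u 2 * v 2) * u i := by
  fin_cases i <;> simp [Matrix.mulVec, dotProduct, Fin.sum_univ_three, NN] <;> ring

/-- the key computation: the stretched ellipsoid lies in the convex hull of the ball and u, -u -/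
theorem key (u v : Fin 3 → ℝ) (a b T s : ℝ) (hT : nsq u = T) (hT3 : 3 < T)
    (ha : a ^ 2 = (T - 1) / 2) (hb : b ^ 2 = (T + 1) / (2 * (T - 1))) (ha0 : 0 < a)
    (hv : nsq v ≤ 1) (hs : s = u 0 * v 0 + u 1 * v 1 + u 2 * v 2) (hs0 : 0 ≤ s) :
    ∃ l : ℝ, 0 ≤ l ∧ l < 1 ∧
      nsq (fun i => (b * v i + (a - b) / T * s * u i) - l * u i) ≤ (1 - l) ^ 2 := by
  have hT0 : 0 < T := by linarith
  have hT1 : 0 < T - 1 := by linarith
  -- Cauchy Schwarz
  have hcs : s ^ 2 ≤ T * nsq v := by
    rw [← hT, hs]; unfold nsq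
    nlinarith [sq_nonneg (u 0 * v 1 - u 1 * v 0), sq_nonneg (u 0 * v 2 - u 2 * v 0),
      sq_nonneg (u 1 * v 2 - u 2 * v 1)]
  have hcs' : s ^ 2 ≤ T := by nlinarith
  -- the squared norm
  have hexp : ∀ l : ℝ, nsq (fun i => (b * v i + (a - b) / T * s * u i) - l * u i)
      = b ^ 2 * (nsq v - s ^ 2 / T) + (a * s - l * T) ^ 2 / T := by
    intro l
    have h1 : nsq (fun i => (b * v i + (a - b) / T * s * u i) - l * u i)
        = b ^ 2 * nsq v + 2 * b * ((a - b) / T * s - l) * s
          + ((a - b) / T * s - l) ^ 2 * nsq u := by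
      rw [hs]; unfold nsq; ring
    rw [h1, hT]
    field_simp
    ring
  have hbT : b ^ 2 * (2 * (T - 1)) = T + 1 := by rw [hb]; field_simp
  have hb0 : 0 ≤ b ^ 2 := sq_nonneg b
  by_cases hc : a * s ≤ 1
  · refine ⟨0, le_refl _, one_pos, ?_⟩
    rw [hexp 0]
    have h2 : b ^ 2 * (nsq v - s ^ 2 / T) + (a * s - 0 * T) ^ 2 / T
        ≤ b ^ 2 * (1 - s ^ 2 / T) + (a * s) ^ 2 / T := by
      have : b ^ 2 * (nsq v - s ^ 2 / T) ≤ b ^ 2 * (1 - s ^ 2 / T) :=
        mul_le_mul_of_nonneg_left (by linarith) hb0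
      simpa using this
    refine h2.trans ?_
    have h3 : b ^ 2 * (1 - s ^ 2 / T) + (a * s) ^ 2 / T
        = (b ^ 2 * (T - s ^ 2) + a ^ 2 * s ^ 2) / T := by field_simp
    rw [h3, div_le_iff₀ hT0]
    -- a s <= 1 and a^2 >= 1 give s <= 1
    have ha1 : 1 ≤ a ^ 2 := by rw [ha]; linarith
    have hs1 : s ^ 2 ≤ 1 := by
      have : (a * s) ^ 2 ≤ 1 := by
        have h0 : 0 ≤ a * s := mul_nonneg ha0.le hs0
        nlinarith
      nlinarith [sq_nonneg s]
    rw [ha, hb]
    have h4 : (T + 1) / (2 * (T - 1)) * (T - s ^ 2) + (T - 1) / 2 * s ^ 2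
        = T - ((T - 3) * T * (1 - s ^ 2)) / (2 * (T - 1)) := by
      field_simp
      ring
    rw [h4]
    have h5 : 0 ≤ ((T - 3) * T * (1 - s ^ 2)) / (2 * (T - 1)) := by
      apply div_nonneg
      · apply mul_nonneg
        · apply mul_nonneg <;> linarith
        · linarith
      · linarith
    nlinarith
  · rw [not_le] at hc
    refine ⟨(a * s - 1) / (T - 1), div_nonneg (by linarith) hT1.le, ?_, ?_⟩
    · rw [div_lt_one hT1]
      have h6 : (a * s) ^ 2 < T ^ 2 := by
        have : (a * s) ^ 2 = a ^ 2 * s ^ 2 := by ring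
        rw [this, ha]
        nlinarith
      have h7 : a * s < T := by nlinarith
      linarith
    · rw [hexp]
      have h8 : b ^ 2 * (nsq v - s ^ 2 / T) ≤ b ^ 2 * (1 - s ^ 2 / T) :=
        mul_le_mul_of_nonneg_left (by linarith) hb0
      have h9 : (1 - (a * s - 1) / (T - 1)) ^ 2
          - (b ^ 2 * (1 - s ^ 2 / T) + (a * s - (a * s - 1) / (T - 1) * T) ^ 2 / T)
          = (s - a) ^ 2 / (T - 1) := by
        rw [hb]
        have ha' : a ^ 2 * 2 = T - 1 := by rw [ha]; ring
        field_simp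
        have : T = a ^ 2 * 2 + 1 := by linarith
        rw [this]
        ring
      have h10 : 0 ≤ (s - a) ^ 2 / (T - 1) := div_nonneg (sq_nonneg _) hT1.le
      linarith

/-- nsq of a negative -/
theorem nsq_neg (v : Fin 3 → ℝ) : nsq (-v) = nsq v := by
  simp [nsq]

/-- step: if M(ball) lies in C and M u in C with |u|^2 > 3 then some matrix of larger determinant
maps the ball into C -/
theorem step (C : Set (Fin 3 → ℝ)) (hC : Convex ℝ C) (hs : ∀ x ∈ C, -x ∈ C)
    (M : Matrix (Fin 3) (Fin 3) ℝ) (hM : ∀ u : Fin 3 → ℝ, nsq u ≤ 1 → M.mulVec u ∈ C)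
    (hd : 0 < M.det) (u : Fin 3 → ℝ) (hu : M.mulVec u ∈ C) (h3 : 3 < nsq u) :
    ∃ M' : Matrix (Fin 3) (Fin 3) ℝ, (∀ v : Fin 3 → ℝ, nsq v ≤ 1 → M'.mulVec v ∈ C) ∧
      M.det < M'.det := by
  set T := nsq u with hT
  have hT1 : 0 < T - 1 := by linarith
  have hT0 : 0 < T := by linarith
  set a := Real.sqrt ((T - 1) / 2) with ha
  set b := Real.sqrt ((T + 1) / (2 * (T - 1))) with hb
  have ha2 : a ^ 2 = (T - 1) / 2 := Real.sq_sqrt (by linarith)
  have hb2 : b ^ 2 = (T + 1) / (2 * (T - 1)) := Real.sq_sqrt (by positivity)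
  have ha0 : 0 < a := Real.sqrt_pos.mpr (by linarith)
  have hb0 : 0 < b := Real.sqrt_pos.mpr (by positivity)
  refine ⟨M * NN b ((a - b) / T) u, ?_, ?_⟩
  · -- the positive case
    have hpos : ∀ v : Fin 3 → ℝ, nsq v ≤ 1 → 0 ≤ u 0 * v 0 + u 1 * v 1 + u 2 * v 2 →
        (M * NN b ((a - b) / T) u).mulVec v ∈ C := by
      intro v hv hsv
      obtain ⟨l, hl0, hl1, hl⟩ := key u v a b T (u 0 * v 0 + u 1 * v 1 + u 2 * v 2) hT.symm h3
        ha2 hb2 ha0 hv rfl hsv
      set w : Fin 3 → ℝ := fun i => (1 - l)⁻¹ * ((b * v i + (a - b) / T *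
        (u 0 * v 0 + u 1 * v 1 + u 2 * v 2) * u i) - l * u i) with hw
      have h1l : 0 < 1 - l := by linarith
      have hw1 : nsq w ≤ 1 := by
        have : nsq w = (1 - l)⁻¹ ^ 2 * nsq (fun i => (b * v i + (a - b) / T *
            (u 0 * v 0 + u 1 * v 1 + u 2 * v 2) * u i) - l * u i) := by
          simp only [hw, nsq]; ring
        rw [this, inv_pow, inv_mul_le_iff₀ (by positivity)]
        linarith
      have hN : (NN b ((a - b) / T) u).mulVec v = l • u + (1 - l) • w := by
        funext i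
        rw [NN_mulVec]
        simp only [hw, Pi.add_apply, Pi.smul_apply, smul_eq_mul]
        field_simp
        ring
      rw [← Matrix.mulVec_mulVec, hN, Matrix.mulVec_add, Matrix.mulVec_smul, Matrix.mulVec_smul]
      exact hC hu (hM w hw1) hl0 h1l.le (by ring)
    intro v hv
    by_cases hsv : 0 ≤ u 0 * v 0 + u 1 * v 1 + u 2 * v 2
    · exact hpos v hv hsv
    · have h := hpos (-v) (by rw [nsq_neg]; exact hv) (by
        simp only [Pi.neg_apply]
        rw [not_le] at hsv
        linarith)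
      rw [Matrix.mulVec_neg] at h
      simpa using hs _ h
  · rw [Matrix.det_mul, NN_det, ← hT]
    have h1 : b ^ 3 + b ^ 2 * ((a - b) / T) * T = a * b ^ 2 := by
      field_simp
      ring
    rw [h1]
    have h2 : 1 < a * b ^ 2 := by
      have h3' : 1 < (a * b ^ 2) ^ 2 := by
        have : (a * b ^ 2) ^ 2 = a ^ 2 * (b ^ 2) ^ 2 := by ring
        rw [this, ha2, hb2]
        have h4 : (T - 1) / 2 * ((T + 1) / (2 * (T - 1))) ^ 2 = (T + 1) ^ 2 / (8 * (T - 1)) := by
          field_simp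
          ring
        rw [h4, lt_div_iff₀ (by positivity)]
        nlinarith
      have h5 : 0 ≤ a * b ^ 2 := by positivity
      nlinarith
    nlinarith

/-- John's theorem for a centrally symmetric convex body in R^3. -/
theorem john_symm (C : Set (Fin 3 → ℝ)) (hC : Convex ℝ C) (hK : IsCompact C)
    (hs : ∀ x ∈ C, -x ∈ C) (hi : (interior C).Nonempty) :
    ∃ M : Matrix (Fin 3) (Fin 3) ℝ, M.det ≠ 0 ∧
      (∀ u : Fin 3 → ℝ, nsq u ≤ 1 → M.mulVec u ∈ C) ∧
      (∀ x ∈ C, ∃ u : Fin 3 → ℝ, M.mulVec u = x ∧ nsq u ≤ 3) := by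
  -- a small ball around 0
  have h0 : (0 : Fin 3 → ℝ) ∈ interior C := by
    obtain ⟨x, hx⟩ := hi
    have hx' : -x ∈ closure C := subset_closure (hs x (interior_subset hx))
    have := hC.combo_interior_closure_mem_interior hx hx' (a := 1/2) (b := 1/2) (by norm_num)
      (by norm_num) (by norm_num)
    simpa using this
  obtain ⟨e, he, hball⟩ := Metric.isOpen_iff.mp isOpen_interior 0 h0
  have hball' : ∀ y : Fin 3 → ℝ, (∀ i, |y i| ≤ e / 2) → y ∈ C := by
    intro y hy
    apply interior_subset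
    apply hball
    rw [Metric.mem_ball, dist_zero_right, pi_norm_lt_iff he]
    intro i
    rw [Real.norm_eq_abs]
    linarith [hy i]
  -- the compact set of matrices
  set S : Set (Matrix (Fin 3) (Fin 3) ℝ) := {M | ∀ u : Fin 3 → ℝ, nsq u ≤ 1 → M.mulVec u ∈ C}
    with hS
  obtain ⟨R, hR⟩ := hK.isBounded.exists_norm_le
  have hSclosed : IsClosed S := by
    have : S = ⋂ (u : Fin 3 → ℝ) (_ : nsq u ≤ 1), (fun M : Matrix (Fin 3) (Fin 3) ℝ =>
        M.mulVec u) ⁻¹' C := by
      ext M; simp [hS]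
    rw [this]
    refine isClosed_iInter fun u => isClosed_iInter fun _ => ?_
    exact hK.isClosed.preimage (Continuous.matrix_mulVec continuous_id continuous_const)
  have hSsub : S ⊆ Set.pi Set.univ (fun _ : Fin 3 => Set.pi Set.univ
      (fun _ : Fin 3 => Set.Icc (-R) R)) := by
    intro M hM i _ j _
    have h1 := hR _ (hM (Pi.single j 1) (by fin_cases j <;> simp [nsq]))
    rw [Matrix.mulVec_single_one] at h1
    have h2 : |M i j| ≤ R := by
      have := (norm_le_pi_norm (M.col j) i).trans h1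
      simpa [Real.norm_eq_abs] using this
    exact abs_le.mp h2
  have hScomp : IsCompact S := by
    refine IsCompact.of_isClosed_subset ?_ hSclosed hSsub
    exact isCompact_univ_pi fun _ => isCompact_univ_pi fun _ => isCompact_Icc
  have hE : (e / 2) • (1 : Matrix (Fin 3) (Fin 3) ℝ) ∈ S := by
    intro u hu
    rw [Matrix.smul_mulVec, Matrix.one_mulVec]
    apply hball'
    intro i
    rw [Pi.smul_apply, smul_eq_mul, abs_mul, abs_of_pos (by positivity : 0 < e / 2)]
    have : |u i| ≤ 1 := by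
      rw [abs_le_one_iff_mul_self_le_one]
      unfold nsq at hu
      fin_cases i <;> simp <;> nlinarith [sq_nonneg (u 0), sq_nonneg (u 1), sq_nonneg (u 2)]
    nlinarith
  obtain ⟨M, hMS, hMmax⟩ := hScomp.exists_isMaxOn ⟨_, hE⟩
    (f := fun M : Matrix (Fin 3) (Fin 3) ℝ => M.det) (Continuous.matrix_det continuous_id).continuousOn
  have hdet : 0 < M.det := by
    have h1 := hMmax hE
    simp only [Set.mem_ofPred_eq] at h1
    refine lt_of_lt_of_le ?_ h1
    rw [Matrix.det_smul, Matrix.det_one]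
    positivity
  refine ⟨M, hdet.ne', hMS, ?_⟩
  intro x hx
  refine ⟨M⁻¹.mulVec x, ?_, ?_⟩
  · rw [Matrix.mulVec_mulVec, Matrix.mul_nonsing_inv _ (isUnit_iff_ne_zero.mpr hdet.ne'),
      Matrix.one_mulVec]
  · by_contra hcon
    rw [not_le] at hcon
    obtain ⟨M', hM', hlt⟩ := step C hC hs M hMS hdet (M⁻¹.mulVec x) (by
      rw [Matrix.mulVec_mulVec, Matrix.mul_nonsing_inv _ (isUnit_iff_ne_zero.mpr hdet.ne'),
        Matrix.one_mulVec]
      exact hx) hcon
    have h1 := hMmax (show M' ∈ S from hM')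
    simp only [Set.mem_ofPred_eq] at h1
    linarith

end Helper91.SF
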